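import Pool.Agent.Lib.MP_9f8021_co.Data

/-! # The numerical check of the drawing and of the labelling

All functions are Boolean functions on natural numbers, so that the kernel can evaluate them quickly. -/

set_option autoImplicit false

namespace Pool.Agent.MP9f

/-- negative part of twice the oriented area of the triangle `A B C` -/
def lo (ax ay bx bw cx cy : ℕ) : ℕ := ax * cy + bx * ay + cx * bw

/-- positive part of twice the oriented area of the triangle `A B C` -/
def hi (ax ay bx bw cx cy : ℕ) : ℕ := ax * bw + bx * cy + cx * ay

/-- `s ≤ t` and `s' ≤ t'`, not both with equality, or the same with the sides exchanged -/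
def weak (s t s' t' : ℕ) : Bool :=
  (Nat.ble s t && Nat.ble s' t' && !(Nat.ble t s && Nat.ble t' s')) ||
  (Nat.ble t s && Nat.ble t' s' && !(Nat.ble s t && Nat.ble s' t'))

/-- The second edge lies weakly, and not completely on the line, on one side of the line of the first. -/
def side (e f : Edge) : Bool :=
  weak (lo e.x e.y e.z e.w f.x f.y) (hi e.x e.y e.z e.w f.x f.y)
    (lo e.x e.y e.z e.w f.z f.w) (hi e.x e.y e.z e.w f.z f.w)

/-- The two open edges are disjoint. -/
def okPair (e f : Edge) : Bool := side e f || side f e

/-- All pairs of edges are fine. -/
def okPairs : List Edge → Bool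
  | [] => true
  | e :: l => l.all (okPair e) && okPairs l

/-- Labels that are adjacent in `K_{4,4}` minus an edge, the first one on the left. -/
def labOK (l k : ℕ) : Bool :=
  Nat.ble l 3 && (Nat.ble 4 k && Nat.ble k 7) && !(Nat.beq l 0 && Nat.beq k 4)

/-- The data of one edge agree with the tables. -/
def okEdge (e : Edge) : Bool :=
  (Nat.beq (xs.getD e.u 0) e.x && Nat.beq (ys.getD e.u 0) e.y && Nat.beq (ls.getD e.u 0) e.l &&
  Nat.beq (xs.getD e.v 0) e.z && Nat.beq (ys.getD e.v 0) e.w && Nat.beq (ls.getD e.v 0) e.k) &&
  (!(Nat.beq e.u e.v)) && labOK e.l e.k

/-- No vertex of the list lies on the open edge `e`: either it is an end or off the line. -/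
def offLine (e : Edge) : List ℕ → List ℕ → Bool
  | a :: l, b :: m =>
    ((Nat.beq a e.x && Nat.beq b e.y) || (Nat.beq a e.z && Nat.beq b e.w) ||
      !(Nat.beq (lo e.x e.y e.z e.w a b) (hi e.x e.y e.z e.w a b))) && offLine e l m
  | _, _ => true

/-- The points of the two lists are pairwise different from the point `(a, b)`. -/
def newPt (a b : ℕ) : List ℕ → List ℕ → Bool
  | c :: l, d :: m => !(Nat.beq a c && Nat.beq b d) && newPt a b l m
  | _, _ => true

/-- The points are pairwise different. -/
def ptsOK : List ℕ → List ℕ → Bool
  | a :: l, b :: m => newPt a b l m && ptsOK l m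
  | _, _ => true

/-- A vertex with number `n` and label `l < 4` has a neighbour with label `k`. -/
def hasL (n k : ℕ) : Bool := edges.any fun e => Nat.beq e.u n && Nat.beq e.k k

/-- A vertex with number `n` and label `4 ≤ k` has a neighbour with label `l`. -/
def hasR (n l : ℕ) : Bool := edges.any fun e => Nat.beq e.v n && Nat.beq e.l l

/-- The vertex number `n` with label `l` sees all the labels it should see. -/
def sees (n l : ℕ) : Bool :=
  if Nat.ble l 3 then
    (Nat.beq l 0 || hasL n 4) && hasL n 5 && hasL n 6 && hasL n 7
  else
    (Nat.beq l 4 || hasR n 0) && hasR n 1 && hasR n 2 && hasR n 3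

/-- All the vertices from number `n` on see what they should. -/
def seesAll : ℕ → List ℕ → Bool
  | _, [] => true
  | n, l :: m => sees n l && seesAll (n + 1) m

set_option maxRecDepth 100000 in
theorem check_pairs : okPairs edges = true := by decide +kernel

set_option maxRecDepth 100000 in
theorem check_edges : edges.all okEdge = true := by decide +kernel

set_option maxRecDepth 100000 in
theorem check_off : edges.all (fun e => offLine e xs ys) = true := by decide +kernel

set_option maxRecDepth 100000 in
theorem check_pts : ptsOK xs ys = true := by decide +kernel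

set_option maxRecDepth 100000 in
theorem check_sees : seesAll 0 ls = true := by decide +kernel

theorem len_xs : xs.length = 182 := by decide +kernel
theorem len_ys : ys.length = 182 := by decide +kernel
theorem len_ls : ls.length = 182 := by decide +kernel

theorem ls_bound : ls.all (fun l => Nat.ble l 7) = true := by decide +kernel

theorem edges_bound : edges.all (fun e => Nat.blt e.u 182 && Nat.blt e.v 182) = true := by
  decide +kernel

end Pool.Agent.MP9f
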