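import Mathlib

/-!
# Straight-line drawings checked by natural-number arithmetic

A finite graph is given by a list `V` of vertex records `(code, x, y)` and a list `E` of edge
records `((i, xi, yi), (j, xj, yj))`.  The code (a number below `8`) names a vertex of `K_{4,4}`.
`checkAll V E = true` implies that the straight-line drawing has no crossings and that the codes
give a locally surjective homomorphism to `K_{4,4}` minus the edge between `inl 0` and `inr 0`.
-/

set_option autoImplicit false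

namespace Pool.Agent.K44e

/-! ## Geometry -/

theorem disjoint_of_functional {a b c d : ℝ × ℝ} (α β γ : ℝ)
    (h1 : α * a.1 + β * a.2 + γ ≤ α * c.1 + β * c.2 + γ)
    (h2 : α * a.1 + β * a.2 + γ ≤ α * d.1 + β * d.2 + γ)
    (h3 : α * b.1 + β * b.2 + γ ≤ α * c.1 + β * c.2 + γ)
    (h4 : α * b.1 + β * b.2 + γ ≤ α * d.1 + β * d.2 + γ)
    (h5 : (α * a.1 + β * a.2 + γ) + (α * b.1 + β * b.2 + γ) <
      (α * c.1 + β * c.2 + γ) + (α * d.1 + β * d.2 + γ)) :
    ∀ z, z ∈ openSegment ℝ a b → z ∈ openSegment ℝ c d → False := by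
  rintro z ⟨s, t, hs, ht, hst, rfl⟩ ⟨u, v, hu, hv, huv, hz⟩
  have e1 : u * c.1 + v * d.1 = s * a.1 + t * b.1 := by
    have := congrArg Prod.fst hz
    simpa using this
  have e2 : u * c.2 + v * d.2 = s * a.2 + t * b.2 := by
    have := congrArg Prod.snd hz
    simpa using this
  set A := α * a.1 + β * a.2 + γ with hA
  set B := α * b.1 + β * b.2 + γ with hB
  set C := α * c.1 + β * c.2 + γ with hC
  set D := α * d.1 + β * d.2 + γ with hD
  have e3 : u * C + v * D = s * A + t * B := by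
    have k1 : u * C + v * D = α * (u * c.1 + v * d.1) + β * (u * c.2 + v * d.2) + γ * (u + v) := by
      rw [hC, hD]; ring
    have k2 : s * A + t * B = α * (s * a.1 + t * b.1) + β * (s * a.2 + t * b.2) + γ * (s + t) := by
      rw [hA, hB]; ring
    rw [k1, k2, e1, e2, hst, huv]
  have e4 : s * u * (C - A) + s * v * (D - A) + t * u * (C - B) + t * v * (D - B) = 0 := by
    have : s * u * (C - A) + s * v * (D - A) + t * u * (C - B) + t * v * (D - B)
        = (s + t) * (u * C + v * D) - (u + v) * (s * A + t * B) := by ring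
    rw [this, hst, huv, e3]; ring
  have p1 : 0 ≤ s * u * (C - A) := mul_nonneg (mul_pos hs hu).le (by linarith)
  have p2 : 0 ≤ s * v * (D - A) := mul_nonneg (mul_pos hs hv).le (by linarith)
  have p3 : 0 ≤ t * u * (C - B) := mul_nonneg (mul_pos ht hu).le (by linarith)
  have p4 : 0 ≤ t * v * (D - B) := mul_nonneg (mul_pos ht hv).le (by linarith)
  have q1 : s * u * (C - A) = 0 := by linarith
  have q4 : t * v * (D - B) = 0 := by linarith
  have r1 : C - A = 0 := by
    rcases mul_eq_zero.mp q1 with h | h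
    · exact absurd h (mul_pos hs hu).ne'
    · exact h
  have r4 : D - B = 0 := by
    rcases mul_eq_zero.mp q4 with h | h
    · exact absurd h (mul_pos ht hv).ne'
    · exact h
  linarith

/-! ## Boolean checks -/

/-- A point with natural-number coordinates. -/
abbrev NPt := ℕ × ℕ

/-- the real point -/
def toR (a : NPt) : ℝ × ℝ := ((a.1 : ℝ), (a.2 : ℝ))

/-- `a, b ≤ c, d` and not all four are equal -/
def le4 (a b c d : ℕ) : Bool :=
  Nat.ble a c && (Nat.ble a d && (Nat.ble b c && (Nat.ble b d && Nat.ble (a + b + 1) (c + d))))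

theorem le4_spec {a b c d : ℕ} (h : le4 a b c d = true) :
    a ≤ c ∧ a ≤ d ∧ b ≤ c ∧ b ≤ d ∧ a + b < c + d := by
  unfold le4 at h
  simp only [Bool.and_eq_true, Nat.ble_eq] at h
  omega

/-- positive part of the orientation determinant of `a, b, c` -/
def opos (a b c : NPt) : ℕ := b.1 * c.2 + b.2 * a.1 + a.2 * c.1

/-- negative part of the orientation determinant of `a, b, c` -/
def oneg (a b c : NPt) : ℕ := b.1 * a.2 + a.1 * c.2 + b.2 * c.1

/-- both `c` and `d` weakly on one side of the line `a b`, not both on it -/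
def side1 (a b c d : NPt) : Bool :=
  Nat.ble (oneg a b c) (opos a b c) && (Nat.ble (oneg a b d) (opos a b d) &&
    Nat.ble (oneg a b c + oneg a b d + 1) (opos a b c + opos a b d))

/-- the same for the other side -/
def side2 (a b c d : NPt) : Bool :=
  Nat.ble (opos a b c) (oneg a b c) && (Nat.ble (opos a b d) (oneg a b d) &&
    Nat.ble (opos a b c + opos a b d + 1) (oneg a b c + oneg a b d))

/-- separation test for two segments -/
def sep (a b c d : NPt) : Bool :=
  le4 a.1 b.1 c.1 d.1 || (le4 c.1 d.1 a.1 b.1 || (le4 a.2 b.2 c.2 d.2 || (le4 c.2 d.2 a.2 b.2 ||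
    (side1 a b c d || (side2 a b c d || (side1 c d a b || side2 c d a b))))))

/-- the open segments do not meet -/
def Apart (a b c d : NPt) : Prop :=
  ∀ z, z ∈ openSegment ℝ (toR a) (toR b) → z ∈ openSegment ℝ (toR c) (toR d) → False

theorem Apart.symm {a b c d : NPt} (h : Apart a b c d) : Apart c d a b :=
  fun z h1 h2 => h z h2 h1

theorem apart_of_le4x {a b c d : NPt} (h : le4 a.1 b.1 c.1 d.1 = true) : Apart a b c d := by
  obtain ⟨h1, h2, h3, h4, h5⟩ := le4_spec h
  have h1' : (a.1 : ℝ) ≤ c.1 := by exact_mod_cast h1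
  have h2' : (a.1 : ℝ) ≤ d.1 := by exact_mod_cast h2
  have h3' : (b.1 : ℝ) ≤ c.1 := by exact_mod_cast h3
  have h4' : (b.1 : ℝ) ≤ d.1 := by exact_mod_cast h4
  have h5' : (a.1 : ℝ) + b.1 < c.1 + d.1 := by exact_mod_cast h5
  apply disjoint_of_functional 1 0 0 <;> simp only [toR] <;> linarith

theorem apart_of_le4y {a b c d : NPt} (h : le4 a.2 b.2 c.2 d.2 = true) : Apart a b c d := by
  obtain ⟨h1, h2, h3, h4, h5⟩ := le4_spec h
  have h1' : (a.2 : ℝ) ≤ c.2 := by exact_mod_cast h1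
  have h2' : (a.2 : ℝ) ≤ d.2 := by exact_mod_cast h2
  have h3' : (b.2 : ℝ) ≤ c.2 := by exact_mod_cast h3
  have h4' : (b.2 : ℝ) ≤ d.2 := by exact_mod_cast h4
  have h5' : (a.2 : ℝ) + b.2 < c.2 + d.2 := by exact_mod_cast h5
  apply disjoint_of_functional 0 1 0 <;> simp only [toR] <;> linarith

theorem apart_of_side1 {a b c d : NPt} (h : side1 a b c d = true) : Apart a b c d := by
  unfold side1 opos oneg at h
  simp only [Bool.and_eq_true, Nat.ble_eq] at h
  obtain ⟨h1, h2, h3⟩ := h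
  have h1' : (b.1 : ℝ) * a.2 + a.1 * c.2 + b.2 * c.1 ≤ b.1 * c.2 + b.2 * a.1 + a.2 * c.1 := by
    exact_mod_cast h1
  have h2' : (b.1 : ℝ) * a.2 + a.1 * d.2 + b.2 * d.1 ≤ b.1 * d.2 + b.2 * a.1 + a.2 * d.1 := by
    exact_mod_cast h2
  have h3' : ((b.1 : ℝ) * a.2 + a.1 * c.2 + b.2 * c.1) + (b.1 * a.2 + a.1 * d.2 + b.2 * d.1) + 1 ≤
      (b.1 * c.2 + b.2 * a.1 + a.2 * c.1) + (b.1 * d.2 + b.2 * a.1 + a.2 * d.1) := by
    exact_mod_cast h3
  apply disjoint_of_functional ((a.2 : ℝ) - b.2) ((b.1 : ℝ) - a.1) 0 <;> simp only [toR] <;>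
    nlinarith

theorem apart_of_side2 {a b c d : NPt} (h : side2 a b c d = true) : Apart a b c d := by
  unfold side2 opos oneg at h
  simp only [Bool.and_eq_true, Nat.ble_eq] at h
  obtain ⟨h1, h2, h3⟩ := h
  have h1' : (b.1 : ℝ) * c.2 + b.2 * a.1 + a.2 * c.1 ≤ b.1 * a.2 + a.1 * c.2 + b.2 * c.1 := by
    exact_mod_cast h1
  have h2' : (b.1 : ℝ) * d.2 + b.2 * a.1 + a.2 * d.1 ≤ b.1 * a.2 + a.1 * d.2 + b.2 * d.1 := by
    exact_mod_cast h2
  have h3' : ((b.1 : ℝ) * c.2 + b.2 * a.1 + a.2 * c.1) + (b.1 * d.2 + b.2 * a.1 + a.2 * d.1) + 1 ≤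
      (b.1 * a.2 + a.1 * c.2 + b.2 * c.1) + (b.1 * a.2 + a.1 * d.2 + b.2 * d.1) := by
    exact_mod_cast h3
  apply disjoint_of_functional ((b.2 : ℝ) - a.2) ((a.1 : ℝ) - b.1) 0 <;> simp only [toR] <;>
    nlinarith

theorem apart_of_sep {a b c d : NPt} (h : sep a b c d = true) : Apart a b c d := by
  unfold sep at h
  simp only [Bool.or_eq_true] at h
  rcases h with h | h | h | h | h | h | h | h
  · exact apart_of_le4x h
  · exact (apart_of_le4x h).symm
  · exact apart_of_le4y h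
  · exact (apart_of_le4y h).symm
  · exact apart_of_side1 h
  · exact apart_of_side2 h
  · exact (apart_of_side1 h).symm
  · exact (apart_of_side2 h).symm

/-- `w` is off the open segment `a b` -/
def off (a b w : NPt) : Bool :=
  Nat.blt w.1 a.1 && Nat.blt w.1 b.1 || (Nat.blt a.1 w.1 && Nat.blt b.1 w.1 ||
    (Nat.blt w.2 a.2 && Nat.blt w.2 b.2 || (Nat.blt a.2 w.2 && Nat.blt b.2 w.2 ||
      (Nat.blt (opos a b w) (oneg a b w) || Nat.blt (oneg a b w) (opos a b w)))))

theorem off_spec {a b w : NPt} (h : off a b w = true) :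
    toR w ∉ openSegment ℝ (toR a) (toR b) := by
  rintro ⟨s, t, hs, ht, hst, hz⟩
  have e1 : s * (a.1 : ℝ) + t * b.1 = w.1 := by
    have := congrArg Prod.fst hz
    simpa [toR] using this
  have e2 : s * (a.2 : ℝ) + t * b.2 = w.2 := by
    have := congrArg Prod.snd hz
    simpa [toR] using this
  unfold off at h
  simp only [Bool.or_eq_true, Bool.and_eq_true, Nat.blt_eq] at h
  have ht' : t = 1 - s := by linarith
  rcases h with ⟨h1, h2⟩ | ⟨h1, h2⟩ | ⟨h1, h2⟩ | ⟨h1, h2⟩ | h | h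
  · have h1' : (w.1 : ℝ) < a.1 := by exact_mod_cast h1
    have h2' : (w.1 : ℝ) < b.1 := by exact_mod_cast h2
    nlinarith [mul_pos hs (sub_pos.mpr h1'), mul_pos ht (sub_pos.mpr h2')]
  · have h1' : (a.1 : ℝ) < w.1 := by exact_mod_cast h1
    have h2' : (b.1 : ℝ) < w.1 := by exact_mod_cast h2
    nlinarith [mul_pos hs (sub_pos.mpr h1'), mul_pos ht (sub_pos.mpr h2')]
  · have h1' : (w.2 : ℝ) < a.2 := by exact_mod_cast h1
    have h2' : (w.2 : ℝ) < b.2 := by exact_mod_cast h2
    nlinarith [mul_pos hs (sub_pos.mpr h1'), mul_pos ht (sub_pos.mpr h2')]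
  · have h1' : (a.2 : ℝ) < w.2 := by exact_mod_cast h1
    have h2' : (b.2 : ℝ) < w.2 := by exact_mod_cast h2
    nlinarith [mul_pos hs (sub_pos.mpr h1'), mul_pos ht (sub_pos.mpr h2')]
  · unfold opos oneg at h
    have h' : (b.1 : ℝ) * w.2 + b.2 * a.1 + a.2 * w.1 < b.1 * a.2 + a.1 * w.2 + b.2 * w.1 := by
      exact_mod_cast h
    rw [← e1, ← e2, ht'] at h'
    nlinarith
  · unfold opos oneg at h
    have h' : (b.1 : ℝ) * a.2 + a.1 * w.2 + b.2 * w.1 < b.1 * w.2 + b.2 * a.1 + a.2 * w.1 := by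
      exact_mod_cast h
    rw [← e1, ← e2, ht'] at h'
    nlinarith

end Pool.Agent.K44e
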