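import Pool.Agent.Lib.MP_9f8021_co.Sound

/-! # The planar emulator: graph, drawing, labelling -/

set_option autoImplicit false

namespace Pool.Agent.MP9f

/-- The graph. -/
def H : SimpleGraph (Fin 182) where
  Adj u v := ∃ e ∈ edges, (e.u = u.1 ∧ e.v = v.1) ∨ (e.u = v.1 ∧ e.v = u.1)
  symm := ⟨by
    rintro u v ⟨e, he, h | h⟩
    · exact ⟨e, he, Or.inr h⟩
    · exact ⟨e, he, Or.inl h⟩⟩
  loopless := ⟨by
    rintro u ⟨e, he, h⟩
    have h1 := (List.all_eq_true.1 check_edges) e he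
    unfold okEdge at h1
    simp only [Bool.and_eq_true, Nat.beq_eq, Bool.not_eq_true'] at h1
    have h2 : e.u = e.v := by
      rcases h with h | h
      · exact h.1.trans h.2.symm
      · exact h.1.trans h.2.symm
    have h3 := h1.1.2
    rw [h2] at h3
    simp at h3⟩

/-- The points of the drawing. -/
def p (u : Fin 182) : ℝ × ℝ := ((xs.getD u.1 0 : ℕ), (ys.getD u.1 0 : ℕ))

/-- The edges of the drawing. -/
noncomputable def γ (u v : Fin 182) (t : unitInterval) : ℝ × ℝ :=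
  ((1 - (t : ℝ)) * (p u).1 + t * (p v).1, (1 - (t : ℝ)) * (p u).2 + t * (p v).2)

/-- A label as a vertex of `K_{4,4}`. -/
def labV (n : ℕ) : Fin 4 ⊕ Fin 4 := if n < 4 then Sum.inl (Fin.ofNat 4 n) else Sum.inr (Fin.ofNat 4 n)

/-- The homomorphism. -/
def φ (u : Fin 182) : Fin 4 ⊕ Fin 4 := labV (ls.getD u.1 0)

theorem edge_facts (e : Edge) (he : e ∈ edges) :
    xs.getD e.u 0 = e.x ∧ ys.getD e.u 0 = e.y ∧ ls.getD e.u 0 = e.l ∧
    xs.getD e.v 0 = e.z ∧ ys.getD e.v 0 = e.w ∧ ls.getD e.v 0 = e.k ∧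
    e.u ≠ e.v ∧ labOK e.l e.k = true ∧ e.u < 182 ∧ e.v < 182 := by
  have h1 := (List.all_eq_true.1 check_edges) e he
  have h4 := (List.all_eq_true.1 edges_bound) e he
  unfold okEdge at h1
  simp only [Bool.and_eq_true, Nat.beq_eq, Bool.not_eq_true'] at h1
  obtain ⟨⟨⟨⟨⟨⟨⟨a1, a2⟩, a3⟩, a4⟩, a5⟩, a6⟩, a7⟩, a8⟩ := h1
  rw [Bool.and_eq_true] at h4
  refine ⟨a1, a2, a3, a4, a5, a6, ?_, a8, ?_, ?_⟩
  · intro h
    rw [h] at a7
    simp at a7
  · exact by simpa using h4.1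
  · exact by simpa using h4.2

theorem p_inj : Function.Injective p := by
  intro u v h
  have h1 : xs.getD u.1 0 = xs.getD v.1 0 ∧ ys.getD u.1 0 = ys.getD v.1 0 := by
    have h2 := congrArg Prod.fst h
    have h3 := congrArg Prod.snd h
    simp only [p] at h2 h3
    exact ⟨by exact_mod_cast h2, by exact_mod_cast h3⟩
  have hu := u.2
  have hv := v.2
  rcases lt_trichotomy u.1 v.1 with h2 | h2 | h2
  · exact absurd h1 (ptsOK_sound xs ys check_pts u.1 v.1 h2 (by rw [len_xs]; exact hv)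
      (by rw [len_ys]; exact hv))
  · exact Fin.ext h2
  · exact absurd ⟨h1.1.symm, h1.2.symm⟩ (ptsOK_sound xs ys check_pts v.1 u.1 h2
      (by rw [len_xs]; exact hu) (by rw [len_ys]; exact hu))

/-- The inner points of a drawn edge, with the coordinates of the list. -/
theorem adj_param (u v : Fin 182) (e : Edge) (he : e ∈ edges)
    (h : (e.u = u.1 ∧ e.v = v.1) ∨ (e.u = v.1 ∧ e.v = u.1)) (t : unitInterval)
    (h0 : t ≠ 0) (h1 : t ≠ 1) : ∃ s : ℝ, 0 < s ∧ s < 1 ∧
      γ u v t = ((1 - s) * (e.x : ℝ) + s * (e.z : ℝ), (1 - s) * (e.y : ℝ) + s * (e.w : ℝ)) := by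
  obtain ⟨a1, a2, a3, a4, a5, a6, a7, a8, a9, a10⟩ := edge_facts e he
  have t0 : (0 : ℝ) < t := lt_of_le_of_ne t.2.1 (fun h => h0 (Subtype.ext h.symm))
  have t1 : (t : ℝ) < 1 := lt_of_le_of_ne t.2.2 (fun h => h1 (Subtype.ext h))
  rcases h with ⟨h2, h3⟩ | ⟨h2, h3⟩
  · refine ⟨t, t0, t1, ?_⟩
    rw [h2] at a1 a2
    rw [h3] at a4 a5
    simp only [γ, p, a1, a2, a4, a5]
  · refine ⟨1 - t, by linarith, by linarith, ?_⟩
    rw [h2] at a1 a2
    rw [h3] at a4 a5
    simp only [γ, p, a1, a2, a4, a5]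
    refine Prod.ext ?_ ?_
    · simp only; ring
    · simp only; ring

theorem drawing_vertex (u v : Fin 182) (h : H.Adj u v) (t : unitInterval) (h0 : t ≠ 0)
    (h1 : t ≠ 1) (w : Fin 182) : γ u v t ≠ p w := by
  obtain ⟨e, he, h⟩ := h
  obtain ⟨s, s0, s1, hs⟩ := adj_param u v e he h t h0 h1
  obtain ⟨a1, a2, a3, a4, a5, a6, a7, a8, a9, a10⟩ := edge_facts e he
  intro hw
  rw [hs] at hw
  have hx : (1 - s) * (e.x : ℝ) + s * (e.z : ℝ) = ((xs.getD w.1 0 : ℕ) : ℝ) :=
    congrArg Prod.fst hw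
  have hy : (1 - s) * (e.y : ℝ) + s * (e.w : ℝ) = ((ys.getD w.1 0 : ℕ) : ℝ) :=
    congrArg Prod.snd hw
  have hne : p ⟨e.u, a9⟩ ≠ p ⟨e.v, a10⟩ := by
    intro h2
    exact a7 (congrArg Fin.val (p_inj h2))
  have hne' : ¬ ((e.x : ℝ) = e.z ∧ (e.y : ℝ) = e.w) := by
    rintro ⟨h2, h3⟩
    apply hne
    simp only [p, a1, a2, a4, a5]
    rw [h2, h3]
  have hoff := offLine_sound e xs ys ((List.all_eq_true.1 check_off) e he) w.1
    (by rw [len_xs]; exact w.2) (by rw [len_ys]; exact w.2)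
  rcases hoff with ⟨b1, b2⟩ | ⟨b1, b2⟩ | b
  · rw [b1] at hx
    rw [b2] at hy
    apply hne'
    constructor
    · have : s * ((e.x : ℝ) - e.z) = 0 := by linear_combination -hx
      rcases mul_eq_zero.1 this with h | h
      · linarith
      · linarith
    · have : s * ((e.y : ℝ) - e.w) = 0 := by linear_combination -hy
      rcases mul_eq_zero.1 this with h | h
      · linarith
      · linarith
  · rw [b1] at hx
    rw [b2] at hy
    apply hne'
    constructor
    · have : (1 - s) * ((e.x : ℝ) - e.z) = 0 := by linear_combination hx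
      rcases mul_eq_zero.1 this with h | h
      · linarith
      · linarith
    · have : (1 - s) * ((e.y : ℝ) - e.w) = 0 := by linear_combination hy
      rcases mul_eq_zero.1 this with h | h
      · linarith
      · linarith
  · apply b
    have : ((lo e.x e.y e.z e.w (xs.getD w.1 0) (ys.getD w.1 0) : ℕ) : ℝ) =
        ((MP9f.hi e.x e.y e.z e.w (xs.getD w.1 0) (ys.getD w.1 0) : ℕ) : ℝ) := by
      simp only [lo, MP9f.hi, Nat.cast_add, Nat.cast_mul]
      linear_combination ((e.z : ℝ) - e.x) * hy + ((e.y : ℝ) - e.w) * hx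
    exact_mod_cast this

theorem drawing_edges (u v u' v' : Fin 182) (h : H.Adj u v) (h' : H.Adj u' v')
    (hne : s(u, v) ≠ s(u', v')) (t t' : unitInterval) (h0 : t ≠ 0) (h1 : t ≠ 1) (h0' : t' ≠ 0)
    (h1' : t' ≠ 1) : γ u v t ≠ γ u' v' t' := by
  obtain ⟨e, he, h⟩ := h
  obtain ⟨f, hf, h'⟩ := h'
  obtain ⟨s, s0, s1, hs⟩ := adj_param u v e he h t h0 h1
  obtain ⟨s', s0', s1', hs'⟩ := adj_param u' v' f hf h' t' h0' h1'
  intro hg
  rw [hs, hs'] at hg
  have hx := congrArg Prod.fst hg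
  have hy := congrArg Prod.snd hg
  simp only at hx hy
  have hef : e ≠ f := by
    rintro rfl
    apply hne
    rw [Sym2.eq_iff]
    rcases h with ⟨b1, b2⟩ | ⟨b1, b2⟩ <;> rcases h' with ⟨c1, c2⟩ | ⟨c1, c2⟩
    · exact Or.inl ⟨Fin.ext (b1.symm.trans c1), Fin.ext (b2.symm.trans c2)⟩
    · exact Or.inr ⟨Fin.ext (b1.symm.trans c1), Fin.ext (b2.symm.trans c2)⟩
    · exact Or.inr ⟨Fin.ext (b2.symm.trans c2), Fin.ext (b1.symm.trans c1)⟩
    · exact Or.inl ⟨Fin.ext (b2.symm.trans c2), Fin.ext (b1.symm.trans c1)⟩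
  rcases okPairs_sound edges check_pairs e he f hf hef with h2 | h2
  · exact okPair_sound e f h2 s s' s0 s1 s0' s1' hx hy
  · exact okPair_sound f e h2 s' s s0' s1' s0 s1 hx.symm hy.symm

/-- Adjacency in `K_{4,4}`. -/
theorem cb_adj (a b : Fin 4 ⊕ Fin 4) : (completeBipartiteGraph (Fin 4) (Fin 4)).Adj a b ↔
    (a.isLeft = true ∧ b.isRight = true) ∨ (a.isRight = true ∧ b.isLeft = true) := by
  simp [completeBipartiteGraph]

theorem lab_left (l : ℕ) (h : l ≤ 3) : (labV l).isLeft = true ∧ (labV l).isRight = false := by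
  interval_cases l <;> exact ⟨rfl, rfl⟩

theorem lab_right (l : ℕ) (h : 4 ≤ l) : (labV l).isRight = true ∧ (labV l).isLeft = false := by
  unfold labV
  rw [if_neg (by omega)]
  exact ⟨rfl, rfl⟩

theorem lab_adj : ∀ l k : ℕ, labOK l k = true →
    ((completeBipartiteGraph (Fin 4) (Fin 4)).Adj (labV l) (labV k) ∧
      s(labV l, labV k) ≠ s(Sum.inl 0, Sum.inr 0)) := by
  intro l k h
  unfold labOK at h
  simp only [Bool.and_eq_true, Nat.ble_eq, Bool.not_eq_true'] at h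
  obtain ⟨⟨h1, h2, h3⟩, h4⟩ := h
  refine ⟨(cb_adj _ _).2 (Or.inl ⟨(lab_left l h1).1, (lab_right k h2).1⟩), ?_⟩
  interval_cases l <;> interval_cases k <;> first | (exact absurd h4 (by decide)) | decide

theorem adj_labels (u v : Fin 182) (h : H.Adj u v) :
    ((completeBipartiteGraph (Fin 4) (Fin 4)).Adj (φ u) (φ v) ∧
      s(φ u, φ v) ≠ s(Sum.inl 0, Sum.inr 0)) := by
  obtain ⟨e, he, h⟩ := h
  obtain ⟨a1, a2, a3, a4, a5, a6, a7, a8, a9, a10⟩ := edge_facts e he
  have h2 := lab_adj _ _ a8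
  rcases h with ⟨b1, b2⟩ | ⟨b1, b2⟩
  · rw [b1] at a3
    rw [b2] at a6
    simp only [φ, a3, a6]
    exact h2
  · rw [b1] at a3
    rw [b2] at a6
    simp only [φ, a3, a6]
    exact ⟨h2.1.symm, fun h3 => h2.2 (by rw [Sym2.eq_swap]; exact h3)⟩

theorem hasL_sound (v : Fin 182) (k : ℕ) (h : hasL v.1 k = true) : ∃ u, H.Adj v u ∧ φ u = labV k := by
  unfold hasL at h
  rw [List.any_eq_true] at h
  obtain ⟨e, he, h⟩ := h
  simp only [Bool.and_eq_true, Nat.beq_eq] at h
  obtain ⟨a1, a2, a3, a4, a5, a6, a7, a8, a9, a10⟩ := edge_facts e he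
  refine ⟨⟨e.v, a10⟩, ⟨e, he, Or.inl ⟨h.1, rfl⟩⟩, ?_⟩
  simp only [φ, a6, h.2]

theorem hasR_sound (v : Fin 182) (l : ℕ) (h : hasR v.1 l = true) : ∃ u, H.Adj v u ∧ φ u = labV l := by
  unfold hasR at h
  rw [List.any_eq_true] at h
  obtain ⟨e, he, h⟩ := h
  simp only [Bool.and_eq_true, Nat.beq_eq] at h
  obtain ⟨a1, a2, a3, a4, a5, a6, a7, a8, a9, a10⟩ := edge_facts e he
  refine ⟨⟨e.u, a9⟩, ⟨e, he, Or.inr ⟨rfl, h.1⟩⟩, ?_⟩
  simp only [φ, a3, h.2]

theorem locally_surjective (v : Fin 182) (w : Fin 4 ⊕ Fin 4)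
    (h : (completeBipartiteGraph (Fin 4) (Fin 4)).Adj (φ v) w ∧
      s(φ v, w) ≠ s(Sum.inl 0, Sum.inr 0)) : ∃ u, H.Adj v u ∧ φ u = w := by
  have hs : sees v.1 (ls.getD v.1 0) = true := by
    have := seesAll_sound ls 0 check_sees v.1 (by rw [len_ls]; exact v.2)
    rwa [Nat.zero_add] at this
  have hb : ls.getD v.1 0 ≤ 7 := by
    have h1 : ls.getD v.1 0 ∈ ls := by
      rw [List.getD_eq_getElem _ _ (by rw [len_ls]; exact v.2)]
      exact List.getElem_mem _
    have := (List.all_eq_true.1 ls_bound) _ h1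
    simpa using this
  have hv : φ v = labV (ls.getD v.1 0) := rfl
  rw [hv] at h
  generalize ls.getD v.1 0 = l at hs hb h
  unfold sees at hs
  by_cases hl : l ≤ 3
  · rw [if_pos (by rw [Nat.ble_eq]; exact hl)] at hs
    simp only [Bool.and_eq_true, Bool.or_eq_true, Nat.beq_eq] at hs
    obtain ⟨⟨⟨h4, h5⟩, h6⟩, h7⟩ := hs
    obtain ⟨hadj, hne⟩ := h
    rcases w with w | w
    · exfalso
      rcases (cb_adj _ _).1 hadj with h | h
      · exact absurd h.2 (by simp)
      · rw [(lab_left l hl).2] at h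
        exact absurd h.1 (by decide)
    · fin_cases w
      · rcases h4 with h4 | h4
        · exfalso
          subst h4
          exact hne rfl
        · exact hasL_sound v 4 h4
      · exact hasL_sound v 5 h5
      · exact hasL_sound v 6 h6
      · exact hasL_sound v 7 h7
  · rw [if_neg (by rw [Nat.ble_eq]; exact hl)] at hs
    simp only [Bool.and_eq_true, Bool.or_eq_true, Nat.beq_eq] at hs
    obtain ⟨⟨⟨h4, h5⟩, h6⟩, h7⟩ := hs
    obtain ⟨hadj, hne⟩ := h
    rcases w with w | w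
    · fin_cases w
      · rcases h4 with h4 | h4
        · exfalso
          subst h4
          apply hne
          rw [Sym2.eq_swap]
          rfl
        · exact hasR_sound v 0 h4
      · exact hasR_sound v 1 h5
      · exact hasR_sound v 2 h6
      · exact hasR_sound v 3 h7
    · exfalso
      rcases (cb_adj _ _).1 hadj with h | h
      · rw [(lab_right l (by omega)).2] at h
        exact absurd h.1 (by decide)
      · exact absurd h.2 (by simp)

theorem φ_surjective : Function.Surjective φ := by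
  rintro (w | w)
  · fin_cases w
    · exact ⟨0, by decide +kernel⟩
    · exact ⟨117, by decide +kernel⟩
    · exact ⟨110, by decide +kernel⟩
    · exact ⟨111, by decide +kernel⟩
  · fin_cases w
    · exact ⟨20, by decide +kernel⟩
    · exact ⟨40, by decide +kernel⟩
    · exact ⟨38, by decide +kernel⟩
    · exact ⟨39, by decide +kernel⟩

end Pool.Agent.MP9f
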