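import Pool.Agent.Lib.MP_9f8021_co.Check

/-! # Soundness of the numerical check -/

set_option autoImplicit false

namespace Pool.Agent.MP9f

/-- Two segments do not meet if the second is weakly on the positive side of the first. -/
theorem seg_pos (ax ay bx bw cx cy dx dy t s : ℝ) (h0 : 0 < s) (h1 : s < 1)
    (hx : (1 - t) * ax + t * bx = (1 - s) * cx + s * dx)
    (hy : (1 - t) * ay + t * bw = (1 - s) * cy + s * dy)
    (hC : ax * cy + bx * ay + cx * bw ≤ ax * bw + bx * cy + cx * ay)
    (hD : ax * dy + bx * ay + dx * bw ≤ ax * bw + bx * dy + dx * ay)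
    (hn : ¬ (ax * bw + bx * cy + cx * ay ≤ ax * cy + bx * ay + cx * bw ∧
      ax * bw + bx * dy + dx * ay ≤ ax * dy + bx * ay + dx * bw)) : False := by
  have key : (1 - s) * ((ax * bw + bx * cy + cx * ay) - (ax * cy + bx * ay + cx * bw)) +
      s * ((ax * bw + bx * dy + dx * ay) - (ax * dy + bx * ay + dx * bw)) = 0 := by
    linear_combination (-(bx - ax)) * hy - (ay - bw) * hx
  have h2 : 0 < 1 - s := by linarith
  have e1 : 0 ≤ (1 - s) * ((ax * bw + bx * cy + cx * ay) - (ax * cy + bx * ay + cx * bw)) :=
    mul_nonneg h2.le (by linarith)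
  have e2 : 0 ≤ s * ((ax * bw + bx * dy + dx * ay) - (ax * dy + bx * ay + dx * bw)) :=
    mul_nonneg h0.le (by linarith)
  have e3 : (1 - s) * ((ax * bw + bx * cy + cx * ay) - (ax * cy + bx * ay + cx * bw)) = 0 := by
    linarith
  have e4 : s * ((ax * bw + bx * dy + dx * ay) - (ax * dy + bx * ay + dx * bw)) = 0 := by
    linarith
  apply hn
  constructor
  · rcases mul_eq_zero.1 e3 with h | h
    · linarith
    · linarith
  · rcases mul_eq_zero.1 e4 with h | h
    · linarith
    · linarith

/-- Two segments do not meet if the second is weakly on the negative side of the first. -/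
theorem seg_neg (ax ay bx bw cx cy dx dy t s : ℝ) (h0 : 0 < s) (h1 : s < 1)
    (hx : (1 - t) * ax + t * bx = (1 - s) * cx + s * dx)
    (hy : (1 - t) * ay + t * bw = (1 - s) * cy + s * dy)
    (hC : ax * bw + bx * cy + cx * ay ≤ ax * cy + bx * ay + cx * bw)
    (hD : ax * bw + bx * dy + dx * ay ≤ ax * dy + bx * ay + dx * bw)
    (hn : ¬ (ax * cy + bx * ay + cx * bw ≤ ax * bw + bx * cy + cx * ay ∧
      ax * dy + bx * ay + dx * bw ≤ ax * bw + bx * dy + dx * ay)) : False := by
  have key : (1 - s) * ((ax * bw + bx * cy + cx * ay) - (ax * cy + bx * ay + cx * bw)) +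
      s * ((ax * bw + bx * dy + dx * ay) - (ax * dy + bx * ay + dx * bw)) = 0 := by
    linear_combination (-(bx - ax)) * hy - (ay - bw) * hx
  have h2 : 0 < 1 - s := by linarith
  have e1 : (1 - s) * ((ax * bw + bx * cy + cx * ay) - (ax * cy + bx * ay + cx * bw)) ≤ 0 :=
    mul_nonpos_of_nonneg_of_nonpos h2.le (by linarith)
  have e2 : s * ((ax * bw + bx * dy + dx * ay) - (ax * dy + bx * ay + dx * bw)) ≤ 0 :=
    mul_nonpos_of_nonneg_of_nonpos h0.le (by linarith)
  have e3 : (1 - s) * ((ax * bw + bx * cy + cx * ay) - (ax * cy + bx * ay + cx * bw)) = 0 := by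
    linarith
  have e4 : s * ((ax * bw + bx * dy + dx * ay) - (ax * dy + bx * ay + dx * bw)) = 0 := by
    linarith
  apply hn
  constructor
  · rcases mul_eq_zero.1 e3 with h | h
    · linarith
    · linarith
  · rcases mul_eq_zero.1 e4 with h | h
    · linarith
    · linarith

/-- Meaning of `weak`. -/
theorem weak_iff (s t s' t' : ℕ) (h : weak s t s' t' = true) :
    (s ≤ t ∧ s' ≤ t' ∧ ¬ (t ≤ s ∧ t' ≤ s')) ∨ (t ≤ s ∧ t' ≤ s' ∧ ¬ (s ≤ t ∧ s' ≤ t')) := by
  unfold weak at h
  simp only [Bool.or_eq_true, Bool.and_eq_true, Bool.not_eq_true', Bool.and_eq_false_iff,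
    Nat.ble_eq] at h
  rcases h with ⟨⟨h1, h2⟩, h3⟩ | ⟨⟨h1, h2⟩, h3⟩
  · left
    refine ⟨h1, h2, ?_⟩
    rintro ⟨h4, h5⟩
    rcases h3 with h3 | h3
    · rw [show Nat.ble t s = true by rw [Nat.ble_eq]; exact h4] at h3; exact absurd h3 (by decide)
    · rw [show Nat.ble t' s' = true by rw [Nat.ble_eq]; exact h5] at h3; exact absurd h3 (by decide)
  · right
    refine ⟨h1, h2, ?_⟩
    rintro ⟨h4, h5⟩
    rcases h3 with h3 | h3
    · rw [show Nat.ble s t = true by rw [Nat.ble_eq]; exact h4] at h3; exact absurd h3 (by decide)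
    · rw [show Nat.ble s' t' = true by rw [Nat.ble_eq]; exact h5] at h3; exact absurd h3 (by decide)

/-- Soundness of `side`. -/
theorem side_sound (e f : Edge) (h : side e f = true) (t s : ℝ) (h0 : 0 < s) (h1 : s < 1)
    (hx : (1 - t) * (e.x : ℝ) + t * (e.z : ℝ) = (1 - s) * (f.x : ℝ) + s * (f.z : ℝ))
    (hy : (1 - t) * (e.y : ℝ) + t * (e.w : ℝ) = (1 - s) * (f.y : ℝ) + s * (f.w : ℝ)) : False := by
  rcases weak_iff _ _ _ _ h with ⟨h2, h3, h4⟩ | ⟨h2, h3, h4⟩
  · refine seg_pos _ _ _ _ _ _ _ _ t s h0 h1 hx hy ?_ ?_ ?_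
    · have := (Nat.cast_le (α := ℝ)).2 h2
      simpa [lo, hi] using this
    · have := (Nat.cast_le (α := ℝ)).2 h3
      simpa [lo, hi] using this
    · rintro ⟨h5, h6⟩
      apply h4
      constructor
      · have : ((hi e.x e.y e.z e.w f.x f.y : ℕ) : ℝ) ≤ ((lo e.x e.y e.z e.w f.x f.y : ℕ) : ℝ) := by
          simpa [lo, hi] using h5
        exact_mod_cast this
      · have : ((hi e.x e.y e.z e.w f.z f.w : ℕ) : ℝ) ≤ ((lo e.x e.y e.z e.w f.z f.w : ℕ) : ℝ) := by
          simpa [lo, hi] using h6
        exact_mod_cast this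
  · refine seg_neg _ _ _ _ _ _ _ _ t s h0 h1 hx hy ?_ ?_ ?_
    · have := (Nat.cast_le (α := ℝ)).2 h2
      simpa [lo, hi] using this
    · have := (Nat.cast_le (α := ℝ)).2 h3
      simpa [lo, hi] using this
    · rintro ⟨h5, h6⟩
      apply h4
      constructor
      · have : ((lo e.x e.y e.z e.w f.x f.y : ℕ) : ℝ) ≤ ((hi e.x e.y e.z e.w f.x f.y : ℕ) : ℝ) := by
          simpa [lo, hi] using h5
        exact_mod_cast this
      · have : ((lo e.x e.y e.z e.w f.z f.w : ℕ) : ℝ) ≤ ((hi e.x e.y e.z e.w f.z f.w : ℕ) : ℝ) := by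
          simpa [lo, hi] using h6
        exact_mod_cast this

/-- Soundness of `okPair`. -/
theorem okPair_sound (e f : Edge) (h : okPair e f = true) (t s : ℝ) (ht0 : 0 < t) (ht1 : t < 1)
    (h0 : 0 < s) (h1 : s < 1)
    (hx : (1 - t) * (e.x : ℝ) + t * (e.z : ℝ) = (1 - s) * (f.x : ℝ) + s * (f.z : ℝ))
    (hy : (1 - t) * (e.y : ℝ) + t * (e.w : ℝ) = (1 - s) * (f.y : ℝ) + s * (f.w : ℝ)) : False := by
  unfold okPair at h
  rcases Bool.or_eq_true _ _ ▸ h with h | h
  · exact side_sound e f h t s h0 h1 hx hy
  · exact side_sound f e h s t ht0 ht1 hx.symm hy.symm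

/-- Two different entries of the list of edges have disjoint interiors. -/
theorem okPairs_sound (L : List Edge) (h : okPairs L = true) :
    ∀ e ∈ L, ∀ f ∈ L, e ≠ f → okPair e f = true ∨ okPair f e = true := by
  induction L with
  | nil => intro e he; simp at he
  | cons a l ih =>
    unfold okPairs at h
    rw [Bool.and_eq_true, List.all_eq_true] at h
    intro e he f hf hne
    rcases List.mem_cons.1 he with he' | he'
    · rcases List.mem_cons.1 hf with hf' | hf'
      · exact absurd (he'.trans hf'.symm) hne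
      · left; rw [he']; exact h.1 f hf'
    · rcases List.mem_cons.1 hf with hf' | hf'
      · right; rw [hf']; exact h.1 e he'
      · exact ih h.2 e he' f hf' hne

/-- Meaning of `newPt`. -/
theorem newPt_sound (a b : ℕ) : ∀ l m : List ℕ, newPt a b l m = true → ∀ i : ℕ,
    i < l.length → i < m.length → ¬ (a = l.getD i 0 ∧ b = m.getD i 0) := by
  intro l
  induction l with
  | nil => intro m _ i hi; simp at hi
  | cons c l ih =>
    intro m h i hi hi'
    cases m with
    | nil => simp at hi'
    | cons d m =>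
      unfold newPt at h
      rw [Bool.and_eq_true] at h
      cases i with
      | zero =>
        rintro ⟨h1, h2⟩
        simp only [List.getD_cons_zero] at h1 h2
        subst h1; subst h2
        have := h.1
        simp at this
      | succ i =>
        simp only [List.getD_cons_succ]
        exact ih m h.2 i (by simpa using hi) (by simpa using hi')

/-- Meaning of `ptsOK`. -/
theorem ptsOK_sound : ∀ l m : List ℕ, ptsOK l m = true → ∀ i j : ℕ, i < j → j < l.length →
    j < m.length → ¬ (l.getD i 0 = l.getD j 0 ∧ m.getD i 0 = m.getD j 0) := by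
  intro l
  induction l with
  | nil => intro m _ i j _ hj; simp at hj
  | cons a l ih =>
    intro m h i j hij hj hj'
    cases m with
    | nil => simp at hj'
    | cons b m =>
      unfold ptsOK at h
      rw [Bool.and_eq_true] at h
      cases j with
      | zero => omega
      | succ j =>
        cases i with
        | zero =>
          simp only [List.getD_cons_zero, List.getD_cons_succ]
          exact newPt_sound a b l m h.1 j (by simpa using hj) (by simpa using hj')
        | succ i =>
          simp only [List.getD_cons_succ]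
          exact ih m h.2 i j (by omega) (by simpa using hj) (by simpa using hj')

/-- Meaning of `offLine`. -/
theorem offLine_sound (e : Edge) : ∀ l m : List ℕ, offLine e l m = true → ∀ i : ℕ,
    i < l.length → i < m.length →
      (l.getD i 0 = e.x ∧ m.getD i 0 = e.y) ∨ (l.getD i 0 = e.z ∧ m.getD i 0 = e.w) ∨
      lo e.x e.y e.z e.w (l.getD i 0) (m.getD i 0) ≠ hi e.x e.y e.z e.w (l.getD i 0) (m.getD i 0) := by
  intro l
  induction l with
  | nil => intro m _ i hi; simp at hi
  | cons a l ih =>
    intro m h i hi hi'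
    cases m with
    | nil => simp at hi'
    | cons b m =>
      unfold offLine at h
      rw [Bool.and_eq_true] at h
      cases i with
      | zero =>
        simp only [List.getD_cons_zero]
        have := h.1
        simp only [Bool.or_eq_true, Bool.and_eq_true, Nat.beq_eq, Bool.not_eq_true'] at this
        rcases this with (h1 | h1) | h1
        · exact Or.inl h1
        · exact Or.inr (Or.inl h1)
        · refine Or.inr (Or.inr ?_)
          intro h2
          rw [show Nat.beq (lo e.x e.y e.z e.w a b) (MP9f.hi e.x e.y e.z e.w a b) = true by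
            rw [Nat.beq_eq]; exact h2] at h1
          exact absurd h1 (by decide)
      | succ i =>
        simp only [List.getD_cons_succ]
        exact ih m h.2 i (by simpa using hi) (by simpa using hi')

/-- Meaning of `seesAll`. -/
theorem seesAll_sound : ∀ (m : List ℕ) (n : ℕ), seesAll n m = true → ∀ i : ℕ, i < m.length →
    sees (n + i) (m.getD i 0) = true := by
  intro m
  induction m with
  | nil => intro n _ i hi; simp at hi
  | cons a m ih =>
    intro n h i hi
    unfold seesAll at h
    rw [Bool.and_eq_true] at h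
    cases i with
    | zero => simpa using h.1
    | succ i =>
      simp only [List.getD_cons_succ]
      have := ih (n + 1) h.2 i (by simpa using hi)
      rwa [show n + 1 + i = n + (i + 1) by omega] at this

end Pool.Agent.MP9f
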